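import Pool.Agent.H95.FH.Defs

set_option autoImplicit false

namespace H83.FH

open H95.FH

theorem adj_aux (a b c d e f x y z p q r u v w : ℂ)
    (h : a * d * f - a * e * e - b * b * f + b * e * c + c * b * e - c * d * c = 0) :
    let A00 := d * f - e * e
    let A01 := c * e - b * f
    let A02 := b * e - c * d
    let A11 := a * f - c * c
    let A12 := b * c - a * e
    let A22 := a * d - b * b
    let X := y * r - z * q
    let Y := z * p - x * r
    let Z := x * q - y * p
    (u * (A00 * X + A01 * Y + A02 * Z) + v * (A01 * X + A11 * Y + A12 * Z)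
      + w * (A02 * X + A12 * Y + A22 * Z)) ^ 2 =
    (u * (A00 * u + A01 * v + A02 * w) + v * (A01 * u + A11 * v + A12 * w)
      + w * (A02 * u + A12 * v + A22 * w)) *
    ((x * (a * x + b * y + c * z) + y * (b * x + d * y + e * z) + z * (c * x + e * y + f * z)) *
     (p * (a * p + b * q + c * r) + q * (b * p + d * q + e * r) + r * (c * p + e * q + f * r)) -
     (x * (a * p + b * q + c * r) + y * (b * p + d * q + e * r)
       + z * (c * p + e * q + f * r)) ^ 2) := by
  intro A00 A01 A02 A11 A12 A22 X Y Z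
  have h1 : (x * (a * x + b * y + c * z) + y * (b * x + d * y + e * z)
      + z * (c * x + e * y + f * z)) *
     (p * (a * p + b * q + c * r) + q * (b * p + d * q + e * r) + r * (c * p + e * q + f * r)) -
     (x * (a * p + b * q + c * r) + y * (b * p + d * q + e * r)
       + z * (c * p + e * q + f * r)) ^ 2 =
     X * (A00 * X + A01 * Y + A02 * Z) + Y * (A01 * X + A11 * Y + A12 * Z)
      + Z * (A02 * X + A12 * Y + A22 * Z) := by
    simp only [A00, A01, A02, A11, A12, A22, X, Y, Z]; ring
  rw [h1]
  clear_value X Y Z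
  simp only [A00, A01, A02, A11, A12, A22]
  have hK : ∀ X Y Z : ℂ, ((v * Z - w * Y) * (a * (v * Z - w * Y) + b * (w * X - u * Z) + c * (u * Y - v * X))
      + (w * X - u * Z) * (b * (v * Z - w * Y) + d * (w * X - u * Z) + e * (u * Y - v * X))
      + (u * Y - v * X) * (c * (v * Z - w * Y) + e * (w * X - u * Z) + f * (u * Y - v * X))) *
      (a * d * f - a * e * e - b * b * f + b * e * c + c * b * e - c * d * c) = 0 := by
    intro X Y Z; rw [h, mul_zero]
  linear_combination (-1 : ℂ) * hK X Y Z

theorem t_ADJ : S_ADJ := by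
  intro Q hQ hdet Y U c
  have s10 : Q 1 0 = Q 0 1 := hQ.apply 0 1
  have s20 : Q 2 0 = Q 0 2 := hQ.apply 0 2
  have s21 : Q 2 1 = Q 1 2 := hQ.apply 1 2
  rw [Matrix.det_fin_three] at hdet
  rw [s10, s20, s21] at hdet
  have key := adj_aux (Q 0 0) (Q 0 1) (Q 0 2) (Q 1 1) (Q 1 2) (Q 2 2) (Y 0) (Y 1) (Y 2)
    (U 0) (U 1) (U 2) (c 0) (c 1) (c 2) (by linear_combination hdet)
  simp only [Fin.sum_univ_three, Matrix.adjugate_fin_three, cross_apply, s10, s20, s21]
  simp
  simp only at key
  linear_combination key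

end H83.FH
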